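import Pool.Agent.Helper57.SI.Stmts

/-! Row TW of sheet SI (MP_818aa8_nt): the weighted second moment on the torus. -/

set_option autoImplicit false

namespace Pool.Agent.Helper57.SI

open MeasureTheory Set Filter Topology
open Pool.Agent.Helper57.QZ (Pr tor circ)

theorem TW_int {f : ℝ → ℝ} (hf : Continuous f) : Integrable f circ := by
  unfold circ
  refine (hf.integrableOn_Ioc).smul_measure ?_
  exact ENNReal.inv_ne_top.2 (by simp [Real.pi_pos])

theorem TW_circ (f : ℝ → ℝ) :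
    ∫ x, f x ∂circ = (2 * Real.pi)⁻¹ * ∫ x in (0 : ℝ)..(2 * Real.pi), f x := by
  have h2 : (0 : ℝ) ≤ 2 * Real.pi := by positivity
  unfold circ
  rw [integral_smul_measure, intervalIntegral.integral_of_le h2, ENNReal.toReal_inv,
    ENNReal.toReal_ofReal h2, smul_eq_mul]

theorem TW_cos (k : ℤ) (hk : k ≠ 0) (β : ℝ) :
    ∫ x, Real.cos ((k : ℝ) * (x + β)) ∂circ = 0 := by
  rw [TW_circ]
  have hk' : (k : ℝ) ≠ 0 := by exact_mod_cast hk
  have h : ∀ x ∈ uIcc (0 : ℝ) (2 * Real.pi),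
      HasDerivAt (fun x : ℝ => Real.sin ((k : ℝ) * (x + β)) / k)
        (Real.cos ((k : ℝ) * (x + β))) x := by
    intro x _
    have h1 : HasDerivAt (fun x : ℝ => (k : ℝ) * (x + β)) ((k : ℝ) * 1) x :=
      ((hasDerivAt_id x).add_const β).const_mul _
    have h2 := (h1.sin).div_const (k : ℝ)
    refine h2.congr_deriv ?_
    field_simp
  have hc : Continuous fun x : ℝ => Real.cos ((k : ℝ) * (x + β)) := by fun_prop
  rw [intervalIntegral.integral_eq_sub_of_hasDerivAt h (hc.intervalIntegrable _ _)]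
  have e : (k : ℝ) * (2 * Real.pi + β) = (k : ℝ) * (0 + β) + k * (2 * Real.pi) := by ring
  rw [e, Real.sin_add_int_mul_two_pi, sub_self, mul_zero]

theorem TW_c1 : ∫ x, Real.cos x ∂circ = 0 := by
  have h := TW_cos 1 one_ne_zero 0
  simpa using h

theorem TW_s1 : ∫ x, Real.sin x ∂circ = 0 := by
  have h := TW_cos 1 one_ne_zero (-(Real.pi / 2))
  have e : ∀ x : ℝ, Real.cos (((1 : ℤ) : ℝ) * (x + -(Real.pi / 2))) = Real.sin x := by
    intro x
    rw [Int.cast_one, one_mul, ← sub_eq_add_neg, Real.cos_sub_pi_div_two]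
  simpa only [e] using h

theorem TW_fejc (K : ℕ) : Continuous (fej K) := by
  unfold fej
  fun_prop

theorem TW_fej (K : ℕ) (α : ℝ) : ∫ x, fej K (x + α) ∂circ = 1 := by
  unfold fej
  rw [integral_finsetSum _ (fun k _ => TW_int (by fun_prop))]
  have h : ∀ k ∈ Finset.Icc (-(K : ℤ)) (K : ℤ),
      ∫ x, (1 - |(k : ℝ)| / K) * Real.cos ((k : ℝ) * (x + α)) ∂circ =
        if k = 0 then 1 else 0 := by
    intro k _
    by_cases hk : k = 0
    · subst hk
      simp
    · rw [integral_const_mul, TW_cos k hk, mul_zero, if_neg hk]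
  rw [Finset.sum_congr rfl h, Finset.sum_ite_eq', if_pos]
  rw [Finset.mem_Icc]
  omega

/-- the factors of the weight -/
noncomputable def TW_w (z K : ℕ) (α : ℝ) (n : ℕ) (x : ℝ) : ℝ :=
  if n ≤ z then fej K (x + α) else 1

theorem TW_wc (z K : ℕ) (α : ℝ) (n : ℕ) : Continuous (TW_w z K α n) := by
  unfold TW_w
  by_cases h : n ≤ z
  · simp only [h, if_true]
    exact (TW_fejc K).comp (by fun_prop)
  · simp only [h, if_false]
    exact continuous_const

theorem TW_w1 (z K : ℕ) (α : ℝ) (n : ℕ) : ∫ x, TW_w z K α n x ∂circ = 1 := by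
  unfold TW_w
  by_cases h : n ≤ z
  · simp only [h, if_true]
    exact TW_fej K α
  · simp only [h, if_false]
    simp

theorem TW_eq {y : ℕ} (z K : ℕ) (α : ℝ) (a b : ℝ → ℝ) (p q : Pr y) (φ : Pr y → ℝ) :
    wt y z K α φ * (a (φ p) * b (φ q)) =
      ∏ i : Pr y, TW_w z K α i (φ i) *
        ((if i = p then a (φ i) else 1) * (if i = q then b (φ i) else 1)) := by
  rw [Finset.prod_mul_distrib, Finset.prod_mul_distrib, Finset.prod_ite_eq',
    Finset.prod_ite_eq', if_pos (Finset.mem_univ _), if_pos (Finset.mem_univ _)]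
  rfl

theorem TW_fc {y : ℕ} (z K : ℕ) (α : ℝ) {a b : ℝ → ℝ} (ha : Continuous a) (hb : Continuous b)
    (p q i : Pr y) : Continuous fun x : ℝ => TW_w z K α i x *
      ((if i = p then a x else 1) * (if i = q then b x else 1)) := by
  refine (TW_wc z K α i).mul (Continuous.mul ?_ ?_)
  · by_cases h : i = p
    · simp only [h, if_true]; exact ha
    · simp only [h, if_false]; exact continuous_const
  · by_cases h : i = q
    · simp only [h, if_true]; exact hb
    · simp only [h, if_false]; exact continuous_const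

theorem TW_I {y : ℕ} (z K : ℕ) (α : ℝ) {a b : ℝ → ℝ} (ha : Continuous a) (hb : Continuous b)
    (p q : Pr y) : Integrable (fun φ => wt y z K α φ * (a (φ p) * b (φ q))) (tor y) := by
  simp only [TW_eq]
  unfold tor
  exact Integrable.fintype_prod (f := fun (i : Pr y) (x : ℝ) => TW_w z K α i x *
      ((if i = p then a x else 1) * (if i = q then b x else 1)))
    (fun i => TW_int (TW_fc z K α ha hb p q i))

theorem TW_M {y : ℕ} (z K : ℕ) (α : ℝ) (a b : ℝ → ℝ) (p q : Pr y) :
    ∫ φ, wt y z K α φ * (a (φ p) * b (φ q)) ∂tor y =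
      ∏ i : Pr y, ∫ x, TW_w z K α i x *
        ((if i = p then a x else 1) * (if i = q then b x else 1)) ∂circ := by
  simp only [TW_eq]
  unfold tor
  exact integral_fintype_prod_eq_prod (𝕜 := ℝ) (μ := fun _ : Pr y => circ)
    (fun (i : Pr y) (x : ℝ) => TW_w z K α i x *
      ((if i = p then a x else 1) * (if i = q then b x else 1)))

theorem TW_0 {y : ℕ} (z K : ℕ) (α : ℝ) (a b : ℝ → ℝ) (ha : ∫ x, a x ∂circ = 0) (p q : Pr y)
    (hpq : p ≠ q) (hp : z < (p : ℕ)) :
    ∫ φ, wt y z K α φ * (a (φ p) * b (φ q)) ∂tor y = 0 := by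
  rw [TW_M]
  refine Finset.prod_eq_zero (Finset.mem_univ p) ?_
  have e : ∀ x, TW_w z K α p x * ((if p = p then a x else 1) * (if p = q then b x else 1)) =
      a x := by
    intro x
    rw [if_pos rfl, if_neg hpq]
    unfold TW_w
    rw [if_neg (not_le.2 hp), one_mul, mul_one]
  exact (integral_congr_ae (Eventually.of_forall e)).trans ha

theorem TW_1 {y : ℕ} (z K : ℕ) (α : ℝ) : ∫ φ, wt y z K α φ ∂tor y = 1 := by
  have e : ∀ φ : Pr y → ℝ, wt y z K α φ = ∏ i : Pr y, TW_w z K α i (φ i) := fun φ => rfl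
  simp only [e]
  unfold tor
  rw [integral_fintype_prod_eq_prod (𝕜 := ℝ) (μ := fun _ : Pr y => circ)
    (fun (i : Pr y) (x : ℝ) => TW_w z K α i x)]
  exact Finset.prod_eq_one fun i _ => TW_w1 z K α i

theorem TW_diag {y : ℕ} (z K : ℕ) (α : ℝ) (p : Pr y) :
    ∫ φ, wt y z K α φ * (Real.cos (φ p) * Real.cos (φ p)) ∂tor y +
      ∫ φ, wt y z K α φ * (Real.sin (φ p) * Real.sin (φ p)) ∂tor y = 1 := by
  rw [← integral_add (TW_I z K α Real.continuous_cos Real.continuous_cos p p)
    (TW_I z K α Real.continuous_sin Real.continuous_sin p p), ← TW_1 (y := y) z K α]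
  refine integral_congr_ae (Eventually.of_forall fun φ => ?_)
  have h := Real.sin_sq_add_cos_sq (φ p)
  show wt y z K α φ * (Real.cos (φ p) * Real.cos (φ p)) +
    wt y z K α φ * (Real.sin (φ p) * Real.sin (φ p)) = wt y z K α φ
  calc _ = wt y z K α φ * (Real.sin (φ p) ^ 2 + Real.cos (φ p) ^ 2) := by ring
    _ = _ := by rw [h, mul_one]

/-- the coefficients of `tl` -/
noncomputable def TW_c (j y x : ℕ) (p : Pr y) : ℝ :=
  if x < (p : ℕ) then Real.log ((p : ℕ) : ℝ) ^ j / ((p : ℕ) : ℝ) else 0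

theorem TW_tl (j y x : ℕ) (φ : Pr y → ℝ) :
    ‖tl j y x φ‖ ^ 2 = (∑ p : Pr y, TW_c j y x p * Real.cos (φ p)) ^ 2 +
      (∑ p : Pr y, TW_c j y x p * Real.sin (φ p)) ^ 2 := by
  have e : tl j y x φ = ((∑ p : Pr y, TW_c j y x p * Real.cos (φ p) : ℝ) : ℂ) +
      ((-∑ p : Pr y, TW_c j y x p * Real.sin (φ p) : ℝ) : ℂ) * Complex.I := by
    unfold tl
    push_cast
    rw [neg_mul, Finset.sum_mul, ← Finset.sum_neg_distrib, ← Finset.sum_add_distrib]
    refine Finset.sum_congr rfl fun p _ => ?_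
    unfold TW_c
    by_cases h : x < (p : ℕ)
    · simp only [h, if_true]
      have h1 : Complex.exp (-((φ p : ℂ) * Complex.I)) =
          Complex.cos (φ p) - Complex.sin (φ p) * Complex.I := by
        rw [← neg_mul, Complex.exp_mul_I, Complex.cos_neg, Complex.sin_neg]
        ring
      rw [h1]
      push_cast
      ring
    · simp only [h, if_false]
      push_cast
      ring
  rw [e, Complex.sq_norm, Complex.normSq_add_mul_I]
  ring

theorem TW_sum {y : ℕ} (z K : ℕ) (α : ℝ) (c : Pr y → ℝ) (hc : ∀ p : Pr y, ¬ z < (p : ℕ) → c p = 0)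
    {a : ℝ → ℝ} (ha : Continuous a) (h0 : ∫ x, a x ∂circ = 0) :
    Integrable (fun φ => wt y z K α φ * (∑ p : Pr y, c p * a (φ p)) ^ 2) (tor y) ∧
    ∫ φ, wt y z K α φ * (∑ p : Pr y, c p * a (φ p)) ^ 2 ∂tor y =
      ∑ p : Pr y, c p ^ 2 * ∫ φ, wt y z K α φ * (a (φ p) * a (φ p)) ∂tor y := by
  have e : ∀ φ : Pr y → ℝ, wt y z K α φ * (∑ p : Pr y, c p * a (φ p)) ^ 2 =
      ∑ p : Pr y, ∑ q : Pr y, (c p * c q) * (wt y z K α φ * (a (φ p) * a (φ q))) := by
    intro φ
    rw [sq, Finset.sum_mul_sum, Finset.mul_sum]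
    refine Finset.sum_congr rfl fun p _ => ?_
    rw [Finset.mul_sum]
    refine Finset.sum_congr rfl fun q _ => ?_
    ring
  have hI : ∀ p q : Pr y, Integrable
      (fun φ => (c p * c q) * (wt y z K α φ * (a (φ p) * a (φ q)))) (tor y) :=
    fun p q => (TW_I z K α ha ha p q).const_mul _
  simp only [e]
  refine ⟨integrable_finsetSum _ fun p _ => integrable_finsetSum _ fun q _ => hI p q, ?_⟩
  rw [integral_finsetSum _ (fun p _ => integrable_finsetSum _ fun q _ => hI p q)]
  refine Finset.sum_congr rfl fun p _ => ?_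
  rw [integral_finsetSum _ (fun q _ => hI p q)]
  rw [Finset.sum_eq_single p]
  · rw [integral_const_mul, sq]
  · intro q _ hq
    rw [integral_const_mul]
    by_cases hp : z < (p : ℕ)
    · rw [TW_0 z K α a a h0 p q (fun h => hq h.symm) hp, mul_zero]
    · rw [hc p hp, zero_mul, zero_mul]
  · intro h
    exact absurd (Finset.mem_univ p) h

theorem st_TW : ST_TW := by
  intro y z K j α _
  have hc : ∀ p : Pr y, ¬ z < (p : ℕ) → TW_c j y z p = 0 := by
    intro p hp
    unfold TW_c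
    rw [if_neg hp]
  obtain ⟨i1, e1⟩ := TW_sum z K α (TW_c j y z) hc Real.continuous_cos TW_c1
  obtain ⟨i2, e2⟩ := TW_sum z K α (TW_c j y z) hc Real.continuous_sin TW_s1
  have e : ∀ φ : Pr y → ℝ, wt y z K α φ * ‖tl j y z φ‖ ^ 2 =
      wt y z K α φ * (∑ p : Pr y, TW_c j y z p * Real.cos (φ p)) ^ 2 +
      wt y z K α φ * (∑ p : Pr y, TW_c j y z p * Real.sin (φ p)) ^ 2 := by
    intro φ
    rw [TW_tl, mul_add]
  simp only [e]
  rw [integral_add i1 i2, e1, e2, ← Finset.sum_add_distrib]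
  refine le_of_eq (Finset.sum_congr rfl fun p _ => ?_)
  rw [← mul_add, TW_diag, mul_one]
  unfold TW_c
  by_cases h : z < (p : ℕ)
  · rw [if_pos h, if_pos h]
  · rw [if_neg h, if_neg h]
    ring

end Pool.Agent.Helper57.SI
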